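import Pool.Agent.N20.EN.Stm
import Pool.Agent.Y85.NV.Filt
import Pool.Agent.Y487.NV.La

/-!
# The filtration by Sylow subgroups of centralisers, for the orbits of an overgroup
-/

set_option autoImplicit false
set_option linter.unusedSectionVars false

open scoped Classical Pointwise

noncomputable section

namespace Pool.Agent.N454.ENFILT

open Pool.Agent.Y63.NV
open Pool.Agent.Y85.NV
open Pool.Agent.N20.EN

section

variable {Γ : Type} [Group Γ]

theorem cj_le' {M H : Subgroup Γ} (hM : ∀ h ∈ H, ∀ m ∈ M, h * m * h⁻¹ ∈ M) {h : Γ} (hh : h ∈ H)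
    {R : Subgroup Γ} (hR : R ≤ M) : cj h R ≤ M := by
  intro x hx
  rw [mem_cj] at hx
  have h1 := hM h hh _ (hR hx)
  simpa [mul_assoc] using h1

theorem cj_centr' {M H : Subgroup Γ} (hM : ∀ h ∈ H, ∀ m ∈ M, h * m * h⁻¹ ∈ M) {h : Γ} (hh : h ∈ H)
    (x : Γ) : cj h (M ⊓ Subgroup.centralizer {x}) = M ⊓ Subgroup.centralizer {h * x * h⁻¹} := by
  ext y
  rw [mem_cj, Subgroup.mem_inf, Subgroup.mem_inf, Subgroup.mem_centralizer_singleton_iff,
    Subgroup.mem_centralizer_singleton_iff]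
  constructor
  · rintro ⟨h1, h2⟩
    refine ⟨?_, ?_⟩
    · have h3 := hM h hh _ h1
      simpa [mul_assoc] using h3
    · have h3 := congrArg (fun t => h * t * h⁻¹) h2
      simpa [mul_assoc] using h3
  · rintro ⟨h1, h2⟩
    refine ⟨?_, ?_⟩
    · have h3 := hM h⁻¹ (H.inv_mem hh) _ h1
      simpa [mul_assoc] using h3
    · have h3 := congrArg (fun t => h⁻¹ * t * h) h2
      simpa [mul_assoc] using h3

theorem syl_conj' {p : ℕ} {M H : Subgroup Γ} (hM : ∀ h ∈ H, ∀ m ∈ M, h * m * h⁻¹ ∈ M) {x : Γ}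
    {R : Subgroup Γ} (hs : SYL p M x R) {h : Γ} (hh : h ∈ H) :
    SYL p M (h * x * h⁻¹) (cj h R) where
  le := cj_le' hM hh hs.le
  pg := cj_pgroup hs.pg
  cent r hr := by
    rw [mem_cj] at hr
    have h3 := congrArg (fun t => h * t * h⁻¹) (hs.cent _ hr)
    simpa [mul_assoc] using h3
  card := by
    rw [← cj_centr' hM hh x, card_cj, card_cj]
    exact hs.card

variable [Finite Γ]

theorem SX_conj' {p : ℕ} {N M H : Subgroup Γ} (hM : ∀ h ∈ H, ∀ m ∈ M, h * m * h⁻¹ ∈ M)
    {X : Set (Subgroup Γ)} (hX : Stb H X)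
    (hN : ∀ h ∈ H, ∀ n ∈ N, h * n * h⁻¹ ∈ N) {h x : Γ} (hh : h ∈ H) (hx : x ∈ SX p N M X) :
    h * x * h⁻¹ ∈ SX p N M X := by
  obtain ⟨h1, h2, R, hR, h3⟩ := hx
  refine ⟨hN h hh x h1, ?_, cj h R, hX h hh R hR, syl_conj' hM h3 hh⟩
  have h4 : orderOf (h * x * h⁻¹) = orderOf x := by
    have h5 : h * x * h⁻¹ = MulAut.conj h x := (MulAut.conj_apply h x).symm
    rw [h5]
    exact MulEquiv.orderOf_eq _ _
  rwa [h4]

theorem stb_le {M H : Subgroup Γ} (hMH : M ≤ H) {X : Set (Subgroup Γ)} (hX : Stb H X) : Stb M X :=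
  fun h hh R hR => hX h (hMH hh) R hR

theorem sc_eq' {p : ℕ} [Fact p.Prime] {N M H R : Subgroup Γ}
    (hM : ∀ h ∈ H, ∀ m ∈ M, h * m * h⁻¹ ∈ M) (hR : R ≤ M) (hp : IsPGroup p R)
    (hN : ∀ h ∈ H, ∀ n ∈ N, h * n * h⁻¹ ∈ N) : SCO p N M H R = SX p N M (orb H R) := by
  ext x
  constructor
  · rintro ⟨h, hh, hx⟩
    rw [sr_iff hR hp] at hx
    have h1 : h * x * h⁻¹ ∈ SX p N M (orb H R) := ⟨hx.1, hx.2.1, R, self_orb H R, hx.2.2⟩
    have h2 := SX_conj' hM (stb_orb H R) hN (H.inv_mem hh) h1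
    simpa [mul_assoc] using h2
  · rintro ⟨h1, h2, S, ⟨k, hk, rfl⟩, h3⟩
    refine ⟨k⁻¹, H.inv_mem hk, ?_⟩
    rw [sr_iff hR hp]
    refine ⟨hN _ (H.inv_mem hk) x h1, ?_, ?_⟩
    · have h4 : orderOf (k⁻¹ * x * k⁻¹⁻¹) = orderOf x := by
        have h5 : k⁻¹ * x * k⁻¹⁻¹ = MulAut.conj k⁻¹ x := (MulAut.conj_apply k⁻¹ x).symm
        rw [h5]
        exact MulEquiv.orderOf_eq _ _
      rwa [h4]
    · have h4 := syl_conj' hM h3 (H.inv_mem hk)
      rwa [cj_inv_cj] at h4

theorem stb_good' {p : ℕ} {N M H : Subgroup Γ} (hM : ∀ h ∈ H, ∀ m ∈ M, h * m * h⁻¹ ∈ M)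
    (hN : ∀ h ∈ H, ∀ n ∈ N, h * n * h⁻¹ ∈ N) : Stb H {R | Good p N M R} := by
  rintro h hh R ⟨h1, h2, h3⟩
  refine ⟨cj_pgroup h1, cj_le' hM hh h2, ?_⟩
  have h4 : M ≤ cj h M := by
    intro x hx
    rw [mem_cj]
    have h5 := hM h⁻¹ (H.inv_mem hh) x hx
    simpa [mul_assoc] using h5
  have h5 : cj h (N ⊔ R) ≤ N ⊔ cj h R := by
    rw [cj_eq_map, Subgroup.map_sup, ← cj_eq_map, ← cj_eq_map]
    refine sup_le_sup_right ?_ _
    intro x hx
    rw [mem_cj] at hx
    have h6 := hN h hh _ hx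
    simpa [mul_assoc] using h6
  exact h4.trans ((cj_mono h h3).trans h5)

end

section

variable {F : Type} [Field F] {Γ : Type} [Group Γ] [Finite Γ]

theorem VS_le {M H : Subgroup Γ} (hMH : M ≤ H) (S : Set Γ) :
    (VS S H : Submodule F (Γ → F)) ≤ VS S M :=
  fun _ hv => ⟨hv.1, fun j hj x => hv.2 j (hMH hj) x⟩

/-- One step. -/
theorem gm_step' (hLA : S_LA) {p : ℕ} [Fact p.Prime] [IsAlgClosed F] [CharP F p]
    {N M H : Subgroup Γ} {z : Γ → F} (hMH : M ≤ H) (hM : ∀ h ∈ H, ∀ m ∈ M, h * m * h⁻¹ ∈ M)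
    (hN : ∀ h ∈ H, ∀ n ∈ N, h * n * h⁻¹ ∈ N)
    (hz : ∀ h ∈ H, ∀ x : Γ, z (h * x * h⁻¹) = z x) {X Y O : Set (Subgroup Γ)}
    (hY : Stb H Y) (hO : Stb H O) (hX : X = O ∪ Y) (hd : ∀ R ∈ O, R ∉ Y)
    (hup : ∀ R ∈ Y, ∀ P ∈ X, R ≤ P → P ∈ Y) (c : F) :
    gm p z (SX p N M X) H c = gm p z (SX p N M O) H c + gm p z (SX p N M Y) H c := by
  have hXs : Stb H X := by
    rw [hX]
    rintro h hh R (hR | hR)
    · exact Or.inl (hO h hh R hR)
    · exact Or.inr (hY h hh R hR)
  have hzM : ∀ h ∈ M, ∀ x : Γ, z (h * x * h⁻¹) = z x := fun h hh => hz h (hMH hh)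
  have hOX : SX p N M O ⊆ SX p N M X := SX_mono (by rw [hX]; exact Set.subset_union_left)
  have hYX : SX p N M Y ⊆ SX p N M X := SX_mono (by rw [hX]; exact Set.subset_union_right)
  have hXu : SX p N M X = SX p N M O ∪ SX p N M Y := by rw [hX, SX_union]
  have hdis : ∀ x ∈ SX p N M O, x ∉ SX p N M Y := fun x hx => SX_disj (stb_le hMH hO) hd hx
  have hOY : SX p N M O ⊆ SX p N M X \ SX p N M Y := fun x hx => ⟨hOX hx, hdis x hx⟩
  have cX : ∀ h ∈ H, ∀ x ∈ SX p N M X, h * x * h⁻¹ ∈ SX p N M X :=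
    fun h hh x hx => SX_conj' hM hXs hN hh hx
  have cY : ∀ h ∈ H, ∀ x ∈ SX p N M Y, h * x * h⁻¹ ∈ SX p N M Y :=
    fun h hh x hx => SX_conj' hM hY hN hh hx
  have cO : ∀ h ∈ H, ∀ x ∈ SX p N M O, h * x * h⁻¹ ∈ SX p N M O :=
    fun h hh x hx => SX_conj' hM hO hN hh hx
  have h1 := hLA F (Γ → F) (Top p z (SX p N M X)) (Top p z (SX p N M Y)) (rst (SX p N M Y))
    (VS (SX p N M X) H) (VS (SX p N M O) H) (VS (SX p N M Y) H)
    (fun v hv => top_mem hz cX hv) (fun v hv => top_mem hz cY hv) (VS_mono hOX H)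
    (fun v hv => rst_mem cY hv)
    (by
      intro w hw
      refine ⟨w, VS_mono hYX H hw, ?_⟩
      funext x
      rw [rst_apply]
      by_cases hx : x ∈ SX p N M Y
      · rw [if_pos hx]
      · rw [if_neg hx, hw.1 x hx])
    (by
      intro v hv
      constructor
      · intro h
        refine ⟨?_, hv.2⟩
        intro x hx
        by_cases hx' : x ∈ SX p N M Y
        · have h2 := congrFun h x
          rw [rst_apply, if_pos hx'] at h2
          exact h2
        · apply hv.1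
          rw [hXu]
          rintro (h3 | h3)
          · exact hx h3
          · exact hx' h3
      · intro h
        funext x
        rw [rst_apply]
        by_cases hx : x ∈ SX p N M Y
        · rw [if_pos hx]
          apply h.1
          intro h3
          exact hdis x h3 hx
        · rw [if_neg hx]
          rfl)
    (by
      intro v hv
      funext x
      rw [rst_apply, top_apply, top_apply]
      by_cases hx : x ∈ SX p N M Y
      · rw [if_pos hx, if_pos hx, if_pos (hYX hx)]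
        have h2 : v - rst (SX p N M Y) v ∈ VS (SX p N M X \ SX p N M Y) H := by
          have h3 : v - rst (SX p N M Y) v ∈ VS (SX p N M X) H :=
            Submodule.sub_mem _ hv (VS_mono hYX H (rst_mem cY hv))
          refine ⟨?_, h3.2⟩
          intro y hy
          by_cases hy' : y ∈ SX p N M Y
          · rw [Pi.sub_apply, rst_apply, if_pos hy', sub_self]
          · exact h3.1 y fun hy2 => hy ⟨hy2, hy'⟩
        have h3 := key hzM (stb_le hMH hXs) (stb_le hMH hY) hup (VS_le hMH _ h2) hx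
        have h4 : ∑ᶠ g : Γ, z g * v (pp p (g * x)) =
            ∑ᶠ g : Γ, z g * (v - rst (SX p N M Y) v) (pp p (g * x)) +
              ∑ᶠ g : Γ, z g * rst (SX p N M Y) v (pp p (g * x)) := by
          rw [← finsum_add_distrib (Set.toFinite _) (Set.toFinite _)]
          refine finsum_congr fun g => ?_
          rw [Pi.sub_apply]
          ring
        rw [h4, h3, zero_add]
      · rw [if_neg hx, if_neg hx])
    c
  have h2 : VS (SX p N M O) H ⊓ (Top p z (SX p N M X)).maxGenEigenspace c =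
      VS (SX p N M O) H ⊓ (Top p z (SX p N M O)).maxGenEigenspace c := by
    apply gen_eq
    · intro v hv
      funext x
      rw [top_apply, top_apply]
      by_cases hx : x ∈ SX p N M O
      · rw [if_pos hx, if_pos (hOX hx)]
      · rw [if_neg hx]
        by_cases hx' : x ∈ SX p N M X
        · rw [if_pos hx']
          have hx2 : x ∈ SX p N M Y := by
            rw [hXu] at hx'
            exact hx'.resolve_left hx
          exact key hzM (stb_le hMH hXs) (stb_le hMH hY) hup (VS_le hMH _ (VS_mono hOY H hv)) hx2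
        · rw [if_neg hx']
    · intro v hv
      exact top_mem hz cO hv
  rw [h2] at h1
  exact h1

theorem main_ind' (hLA : S_LA) {p : ℕ} [Fact p.Prime] [IsAlgClosed F] [CharP F p]
    {N M H : Subgroup Γ} {z : Γ → F} (hMH : M ≤ H) (hM : ∀ h ∈ H, ∀ m ∈ M, h * m * h⁻¹ ∈ M)
    (hN : ∀ h ∈ H, ∀ n ∈ N, h * n * h⁻¹ ∈ N)
    (hz : ∀ h ∈ H, ∀ x : Γ, z (h * x * h⁻¹) = z x) (c : F) (X : Finset (Subgroup Γ))
    (hg : ∀ R ∈ X, Good p N M R) (hX : Stb H (X : Set (Subgroup Γ)))
    (hup : ∀ R ∈ X, ∀ P, Good p N M P → R ≤ P → P ∈ X) :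
    Nat.card H * gm p z (SX p N M (X : Set (Subgroup Γ))) H c =
      ∑ R ∈ X, Nat.card ↥(H ⊓ Subgroup.normalizer (R : Set Γ)) *
        gm p z (SX p N M (orb H R)) H c := by
  induction X using Finset.strongInduction with
  | H X ih =>
    by_cases hne : X.Nonempty
    · obtain ⟨R0, hR0, hmin⟩ := X.exists_min_image (fun R => Nat.card R) hne
      have hOX : orb H R0 ⊆ (X : Set (Subgroup Γ)) := by
        rintro _ ⟨h, hh, rfl⟩
        exact hX h hh R0 hR0
      let O : Finset (Subgroup Γ) := X.filter (fun R => R ∈ orb H R0)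
      let Y : Finset (Subgroup Γ) := X.filter (fun R => R ∉ orb H R0)
      have hO : (O : Set (Subgroup Γ)) = orb H R0 := by
        ext R
        simp only [O, Finset.coe_filter, Set.mem_ofPred_eq]
        exact ⟨fun h => h.2, fun h => ⟨hOX h, h⟩⟩
      have hYX : Y ⊂ X := by
        refine Finset.filter_ssubset.2 ⟨R0, hR0, ?_⟩
        exact fun h => h (self_orb H R0)
      have hYs : Stb H (Y : Set (Subgroup Γ)) := by
        intro h hh R hR
        have hR' := Finset.mem_filter.1 (Finset.mem_coe.1 hR)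
        refine Finset.mem_coe.2 (Finset.mem_filter.2 ⟨hX h hh R hR'.1, ?_⟩)
        intro h3
        apply hR'.2
        have h4 := stb_orb H R0 _ (H.inv_mem hh) _ h3
        rwa [cj_inv_cj] at h4
      have hYup : ∀ R ∈ Y, ∀ P, Good p N M P → R ≤ P → P ∈ Y := by
        intro R hR P hP hRP
        have hR' := Finset.mem_filter.1 hR
        refine Finset.mem_filter.2 ⟨hup R hR'.1 P hP hRP, ?_⟩
        rintro ⟨k, hk, rfl⟩
        apply hR'.2
        have h3 := hmin R hR'.1
        rw [← card_cj k R0] at h3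
        have h4 : R = cj k R0 := Subgroup.eq_of_le_of_card_ge hRP h3
        rw [h4]
        exact ⟨k, hk, rfl⟩
      have hXu : (X : Set (Subgroup Γ)) = orb H R0 ∪ (Y : Set (Subgroup Γ)) := by
        ext R
        constructor
        · intro hR
          by_cases h : R ∈ orb H R0
          · exact Or.inl h
          · exact Or.inr (Finset.mem_coe.2 (Finset.mem_filter.2 ⟨hR, h⟩))
        · rintro (hR | hR)
          · exact hOX hR
          · exact Finset.mem_coe.2 (Finset.mem_filter.1 (Finset.mem_coe.1 hR)).1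
      have h1 := gm_step' hLA hMH hM hN hz hYs (stb_orb H R0) hXu
        (fun R hR hR' => (Finset.mem_filter.1 (Finset.mem_coe.1 hR')).2 hR)
        (fun R hR P hP hRP => Finset.mem_coe.2
          (hYup R (Finset.mem_coe.1 hR) P (hg P (Finset.mem_coe.1 hP)) hRP)) c
      have h2 := ih Y hYX (fun R hR => hg R (Finset.mem_filter.1 hR).1) hYs hYup
      have h3 : ∑ R ∈ O, Nat.card ↥(H ⊓ Subgroup.normalizer (R : Set Γ)) *
          gm p z (SX p N M (orb H R)) H c = Nat.card H * gm p z (SX p N M (orb H R0)) H c := by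
        have h4 : ∀ R ∈ O, Nat.card ↥(H ⊓ Subgroup.normalizer (R : Set Γ)) *
            gm p z (SX p N M (orb H R)) H c =
            Nat.card ↥(H ⊓ Subgroup.normalizer (R0 : Set Γ)) *
            gm p z (SX p N M (orb H R0)) H c := by
          intro R hR
          have h5 : R ∈ orb H R0 := (Finset.mem_filter.1 hR).2
          have h6 := card_orb H R
          rw [orb_eq h5] at h6 ⊢
          have h7 := card_orb H R0
          have h8 : 0 < Nat.card (orb H R0) := by
            have : Nonempty (orb H R0) := ⟨⟨R0, self_orb H R0⟩⟩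
            exact Nat.card_pos
          rw [← h7] at h6
          rw [Nat.eq_of_mul_eq_mul_left h8 h6]
        rw [Finset.sum_congr rfl h4, Finset.sum_const, smul_eq_mul, ← mul_assoc]
        congr 1
        have h5 : O.card = Nat.card (orb H R0) := by
          rw [← hO]
          simp
        rw [h5]
        exact card_orb H R0
      rw [h1, mul_add, h2, ← h3]
      exact Finset.sum_filter_add_sum_filter_not X (fun R => R ∈ orb H R0) _
    · rw [Finset.not_nonempty_iff_eq_empty] at hne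
      subst hne
      rw [Finset.sum_empty]
      have h1 : SX p N M ((∅ : Finset (Subgroup Γ)) : Set (Subgroup Γ)) = ∅ := by
        ext x
        simp [SX]
      have h2 : (VS (∅ : Set Γ) H : Submodule F (Γ → F)) = ⊥ := by
        rw [eq_bot_iff]
        intro v hv
        rw [Submodule.mem_bot]
        funext x
        exact hv.1 x (by simp)
      rw [h1, gm, h2, bot_inf_eq, finrank_bot, mul_zero]

end

theorem FILTO (h2 : S_FILTAO) : S_FILTO := by
  intro p hp F _ _ _ Γ _ _ N M H z he c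
  have hN := he.normN
  have hM := he.normM
  have : Fintype (Subgroup Γ) := Fintype.ofFinite _
  have h3 := main_ind' Pool.Agent.Y487.NV.la he.le hM hN he.inv c
    (Finset.univ.filter (fun R => Good p N M R))
    (fun R hR => (Finset.mem_filter.1 hR).2)
    (by
      intro h hh R hR
      rw [Finset.coe_filter] at hR ⊢
      exact ⟨Finset.mem_univ _, stb_good' hM hN h hh R hR.2⟩)
    (fun R _ P hP _ => Finset.mem_filter.2 ⟨Finset.mem_univ _, hP⟩)
  have h4 : ((Finset.univ.filter (fun R => Good p N M R) : Finset (Subgroup Γ)) :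
      Set (Subgroup Γ)) = {R | Good p N M R} := by
    ext R
    simp
  rw [h4, ← s0_eq he.ext.le he.ext.norm he.ext.pq] at h3
  rw [h3, finsum_eq_sum_of_fintype, Finset.sum_filter]
  refine Finset.sum_congr rfl fun R _ => ?_
  by_cases hR : IsPGroup p R ∧ R ≤ M ∧ M ≤ N ⊔ R
  · rw [if_pos hR, if_pos (show Good p N M R from hR),
      ← h2 p F Γ N M H z he c R hR.1 hR.2.1 hR.2.2, sc_eq' hM hR.2.1 hR.1 hN]
  · rw [if_neg hR, if_neg (show ¬ Good p N M R from hR)]

end Pool.Agent.N454.ENFILT
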