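import Pool.Agent.N502.FR.Stm

/-!
# FR/CRX: the crossing argument (helper454, for project FR of helper502)
-/

set_option autoImplicit false

namespace Pool.Agent.N454.FR_CRX

open Finset Pool.Agent.N502.FR

lemma pos_filter {B : Finset ℕ} (hB : Pos B) (p : ℕ → Prop) [DecidablePred p] :
    Pos (B.filter p) := fun a ha => hB a (Finset.mem_filter.1 ha).1

lemma claim (hJ : S_JMP) {K : Finset ℕ → Finset ℕ → ℝ} (hK : Race K) {m : ℕ} {A B : Finset ℕ}
    (hA : Pos A) (hB : Pos B) (h1 : 1 ∈ A)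
    (h : ∀ s ∈ B, 2 ^ m ≤ s →
      2 * (1 / 2 : ℝ) ^ m < |K A (B.filter (fun b => s ≤ b)) - 1 / 2|) :
    K A (B.filter (fun b => 2 ^ m ≤ b)) < 1 / 2 := by
  by_contra hc
  push Not at hc
  have hAne : A.Nonempty := ⟨1, h1⟩
  have h0 : K A ∅ = 0 := hK.left A hA hAne
  have hne : (B.filter (fun b => 2 ^ m ≤ b)).Nonempty := by
    rw [Finset.nonempty_iff_ne_empty]
    intro h2
    rw [h2, h0] at hc
    norm_num at hc
  classical
  set S : Finset ℕ := (B.filter (fun b => 2 ^ m ≤ b)).filter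
    (fun s => 1 / 2 ≤ K A (B.filter (fun b => s ≤ b))) with hS
  have hSne : S.Nonempty := by
    refine ⟨(B.filter (fun b => 2 ^ m ≤ b)).min' hne, Finset.mem_filter.2
      ⟨Finset.min'_mem _ _, ?_⟩⟩
    have e : B.filter (fun b => (B.filter (fun b => 2 ^ m ≤ b)).min' hne ≤ b) =
        B.filter (fun b => 2 ^ m ≤ b) := by
      ext b
      rw [Finset.mem_filter, Finset.mem_filter]
      constructor
      · rintro ⟨hb, hb'⟩
        exact ⟨hb, (Finset.mem_filter.1 (Finset.min'_mem _ hne)).2.trans hb'⟩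
      · rintro ⟨hb, hb'⟩
        exact ⟨hb, Finset.min'_le _ _ (Finset.mem_filter.2 ⟨hb, hb'⟩)⟩
    rw [e]
    exact hc
  set s := S.max' hSne with hs
  have hsS : s ∈ S := Finset.max'_mem _ _
  obtain ⟨hs1, hs2⟩ := Finset.mem_filter.1 hsS
  obtain ⟨hsB, hsm⟩ := Finset.mem_filter.1 hs1
  have hB' : K A (B.filter (fun b => s < b)) < 1 / 2 := by
    by_cases hemp : (B.filter (fun b => s < b)).Nonempty
    · by_contra hcc
      push Not at hcc
      set s' := (B.filter (fun b => s < b)).min' hemp with hs'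
      obtain ⟨h3, h4⟩ := Finset.mem_filter.1 (Finset.min'_mem _ hemp)
      have e : B.filter (fun b => s' ≤ b) = B.filter (fun b => s < b) := by
        ext b
        rw [Finset.mem_filter, Finset.mem_filter]
        constructor
        · rintro ⟨hb, hb'⟩
          exact ⟨hb, lt_of_lt_of_le h4 hb'⟩
        · rintro ⟨hb, hb'⟩
          exact ⟨hb, Finset.min'_le _ _ (Finset.mem_filter.2 ⟨hb, hb'⟩)⟩
      have h5 : s' ∈ S := by
        refine Finset.mem_filter.2 ⟨Finset.mem_filter.2 ⟨h3, hsm.trans h4.le⟩, ?_⟩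
        rw [e]
        exact hcc
      have h6 := Finset.le_max' S s' h5
      rw [← hs] at h6
      exact absurd h4 (not_lt.2 h6)
    · rw [Finset.not_nonempty_iff_eq_empty] at hemp
      rw [hemp, h0]
      norm_num
  have e : B.filter (fun b => s ≤ b) = insert s (B.filter (fun b => s < b)) := by
    ext b
    rw [Finset.mem_insert, Finset.mem_filter, Finset.mem_filter]
    constructor
    · rintro ⟨hb, hb'⟩
      rcases hb'.eq_or_lt with h2 | h2
      · exact Or.inl h2.symm
      · exact Or.inr ⟨hb, h2⟩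
    · rintro (rfl | ⟨hb, hb'⟩)
      · exact ⟨hsB, le_rfl⟩
      · exact ⟨hb, hb'.le⟩
  have h7 := hJ K hK A (B.filter (fun b => s < b)) s hA (pos_filter hB _) h1 (hB s hsB)
    (fun h2 => lt_irrefl _ (Finset.mem_filter.1 h2).2)
  have h8 := h s hsB hsm
  rw [e] at hs2 h8
  have h9 : (1 : ℝ) / (1 + s) ≤ (1 / 2) ^ m := by
    rw [one_div_pow]
    apply one_div_le_one_div_of_le (by positivity)
    have : ((2 ^ m : ℕ) : ℝ) ≤ s := by exact_mod_cast hsm
    push_cast at this
    linarith
  have h10 : (0 : ℝ) < (1 / 2) ^ m := by positivity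
  rw [abs_of_nonneg (by linarith)] at h8
  linarith

theorem main : S_CRX := by
  intro hJ hC hL hH K hK m A B hm hA hB h1 h
  have h2 := claim hJ hK hA hB h1 h
  have hBh := pos_filter hB (fun b => 2 ^ m ≤ b)
  have h3 := hC K hK A (B.filter (fun b => 2 ^ m ≤ b)) hA hBh ⟨1, Finset.mem_union_left _ h1⟩
  have h4 := hL A (B.filter (fun b => 2 ^ m ≤ b)) hA hBh (by linarith)
  have h5 := hH m B hm hB
  have h6 : p1 B = p1 (B.filter (fun b => b < 2 ^ m)) + p1 (B.filter (fun b => 2 ^ m ≤ b)) := by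
    unfold p1
    rw [← Finset.sum_filter_add_sum_filter_not B (fun b => b < 2 ^ m)]
    congr 1
    refine Finset.sum_congr ?_ fun _ _ => rfl
    ext b
    simp
  linarith

end Pool.Agent.N454.FR_CRX
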