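import Pool.Agent.N502.TM.Stm

/-!
Project TM (helper502), part POL (helper454): the polarization inequality for heat operators.
-/

set_option autoImplicit false

namespace Pool.Agent.N454.TMPOL

open MeasureTheory Set Filter Topology Pool.Agent.N502.TM
open scoped ENNReal Real InnerProductSpace

variable {d : ℕ}

lemma inner_rfl {v : V d} (hv : ‖v‖ = 1) (t : ℝ) (x : V d) :
    ⟪rfl' v t x, v⟫_ℝ = 2 * t - ⟪x, v⟫_ℝ := by
  unfold rfl'
  rw [inner_sub_left, inner_smul_left, real_inner_self_eq_norm_sq, hv]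
  simp
  ring

lemma rfl_rfl {v : V d} (hv : ‖v‖ = 1) (t : ℝ) (x : V d) : rfl' v t (rfl' v t x) = x := by
  have h := inner_rfl hv t x
  conv_lhs => unfold rfl'
  rw [show ⟪x - (2 * (⟪x, v⟫_ℝ - t)) • v, v⟫_ℝ = 2 * t - ⟪x, v⟫_ℝ from h]
  rw [sub_sub, ← add_smul]
  have : 2 * (⟪x, v⟫_ℝ - t) + 2 * (2 * t - ⟪x, v⟫_ℝ - t) = 0 := by ring
  rw [this, zero_smul, sub_zero]

lemma rfl_fix {v : V d} {t : ℝ} {x : V d} (hx : ⟪x, v⟫_ℝ = t) : rfl' v t x = x := by
  unfold rfl'
  rw [hx, sub_self, mul_zero, zero_smul, sub_zero]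

lemma continuous_rfl (v : V d) (t : ℝ) : Continuous (rfl' v t) := by
  unfold rfl'
  fun_prop

lemma norm_rfl_sub {v : V d} (hv : ‖v‖ = 1) (t : ℝ) (x y : V d) :
    ‖x - rfl' v t y‖ ^ 2 = ‖x - y‖ ^ 2 + 4 * (⟪x, v⟫_ℝ - t) * (⟪y, v⟫_ℝ - t) := by
  have h : x - rfl' v t y = (x - y) + (2 * (⟪y, v⟫_ℝ - t)) • v := by
    unfold rfl'
    abel
  rw [h, norm_add_sq_real, norm_smul, hv, inner_smul_right, inner_sub_left]
  rw [mul_one, Real.norm_eq_abs, sq_abs]
  ring

lemma norm_rfl_rfl {v : V d} (hv : ‖v‖ = 1) (t : ℝ) (x y : V d) :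
    ‖rfl' v t x - rfl' v t y‖ = ‖x - y‖ := by
  have h1 := norm_rfl_sub hv t (rfl' v t x) y
  have h2 := norm_rfl_sub hv t y x
  rw [inner_rfl hv] at h1
  rw [norm_sub_rev y, norm_sub_rev y] at h2
  have h3 : ‖rfl' v t x - rfl' v t y‖ ^ 2 = ‖x - y‖ ^ 2 := by
    rw [h1, h2]; ring
  exact (sq_eq_sq₀ (norm_nonneg _) (norm_nonneg _)).1 h3

lemma norm_rfl_left {v : V d} (hv : ‖v‖ = 1) (t : ℝ) (x y : V d) :
    ‖rfl' v t x - y‖ = ‖x - rfl' v t y‖ := by
  have := norm_rfl_rfl hv t x (rfl' v t y)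
  rwa [rfl_rfl hv] at this

lemma heat_congr {s : ℝ} {z z' : V d} (h : ‖z‖ = ‖z'‖) : heat d s z = heat d s z' := by
  unfold heat
  rw [h]

lemma heat_anti {s : ℝ} (hs : 0 < s) {z z' : V d} (h : ‖z‖ ^ 2 ≤ ‖z'‖ ^ 2) :
    heat d s z' ≤ heat d s z := by
  unfold heat
  refine mul_le_mul_of_nonneg_left ?_ (by positivity)
  apply Real.exp_le_exp.2
  rw [neg_div, neg_div]
  apply neg_le_neg
  exact div_le_div_of_nonneg_right h (by positivity)

/-! ### values of the polarization -/

lemma pol_le {v : V d} (hv : ‖v‖ = 1) (t : ℝ) (u : V d → ℝ) {x : V d} (hx : ⟪x, v⟫_ℝ ≤ t) :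
    polF v t u x = max (u x) (u (rfl' v t x)) ∧
      polF v t u (rfl' v t x) = min (u x) (u (rfl' v t x)) := by
  constructor
  · unfold polF
    rw [if_pos hx]
  · rcases hx.lt_or_eq with h | h
    · unfold polF
      rw [inner_rfl hv, if_neg (by linarith), rfl_rfl hv, min_comm]
    · rw [rfl_fix h]
      unfold polF
      rw [if_pos hx, rfl_fix h, max_self, min_self]

lemma pol_ge {v : V d} (hv : ‖v‖ = 1) (t : ℝ) (u : V d → ℝ) {x : V d} (hx : t ≤ ⟪x, v⟫_ℝ) :
    polF v t u x = min (u x) (u (rfl' v t x)) ∧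
      polF v t u (rfl' v t x) = max (u x) (u (rfl' v t x)) := by
  rcases hx.lt_or_eq with h | h
  · constructor
    · unfold polF
      rw [if_neg (by linarith)]
    · unfold polF
      rw [inner_rfl hv, if_pos (by linarith), rfl_rfl hv, max_comm]
  · have h1 := pol_le hv t u (x := x) h.ge
    rw [rfl_fix h.symm] at h1 ⊢
    exact ⟨h1.2, h1.1⟩

lemma four {a b c e p q : ℝ} (h : q ≤ p) :
    (a * c + b * e) * p + (b * c + a * e) * q ≤
      (max a b * max c e + min a b * min c e) * p +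
        (min a b * max c e + max a b * min c e) * q := by
  rcases le_total a b with h1 | h1 <;> rcases le_total c e with h2 | h2
  · rw [max_eq_right h1, min_eq_left h1, max_eq_right h2, min_eq_left h2]
    nlinarith
  · rw [max_eq_right h1, min_eq_left h1, max_eq_left h2, min_eq_right h2]
    nlinarith [mul_nonneg (sub_nonneg.2 h) (mul_nonneg (sub_nonneg.2 h1) (sub_nonneg.2 h2))]
  · rw [max_eq_left h1, min_eq_right h1, max_eq_right h2, min_eq_left h2]
    nlinarith [mul_nonneg (sub_nonneg.2 h) (mul_nonneg (sub_nonneg.2 h1) (sub_nonneg.2 h2))]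
  · rw [max_eq_left h1, min_eq_right h1, max_eq_left h2, min_eq_right h2]

/-- the integrand -/
noncomputable def G (s : ℝ) (u : V d → ℝ) (p : V d × V d) : ℝ :=
  u p.1 * u p.2 * heat d s (p.1 - p.2)

/-- the sum over the four maps -/
noncomputable def S4 (v : V d) (t s : ℝ) (u : V d → ℝ) (p : V d × V d) : ℝ :=
  G s u p + G s u (rfl' v t p.1, p.2) + G s u (p.1, rfl' v t p.2) +
    G s u (rfl' v t p.1, rfl' v t p.2)

lemma S4_le {v : V d} (hv : ‖v‖ = 1) (t : ℝ) {s : ℝ} (hs : 0 < s) (u : V d → ℝ) (p : V d × V d) :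
    S4 v t s u p ≤ S4 v t s (polF v t u) p := by
  obtain ⟨x, y⟩ := p
  have e1 : heat d s (rfl' v t x - rfl' v t y) = heat d s (x - y) :=
    heat_congr (norm_rfl_rfl hv t x y)
  have e2 : heat d s (rfl' v t x - y) = heat d s (x - rfl' v t y) :=
    heat_congr (norm_rfl_left hv t x y)
  have e3 : ∀ f : V d → ℝ, S4 v t s f (x, y) =
      (f x * f y + f (rfl' v t x) * f (rfl' v t y)) * heat d s (x - y) +
        (f (rfl' v t x) * f y + f x * f (rfl' v t y)) * heat d s (x - rfl' v t y) := by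
    intro f
    simp only [S4, G, e1, e2]
    ring
  rw [e3, e3]
  have hn := norm_rfl_sub hv t x y
  rcases le_total ⟪x, v⟫_ℝ t with hx | hx <;> rcases le_total ⟪y, v⟫_ℝ t with hy | hy
  · have hpq : heat d s (x - rfl' v t y) ≤ heat d s (x - y) := by
      apply heat_anti hs
      nlinarith
    rw [(pol_le hv t u hx).1, (pol_le hv t u hx).2, (pol_le hv t u hy).1, (pol_le hv t u hy).2]
    exact four hpq
  · have hpq : heat d s (x - y) ≤ heat d s (x - rfl' v t y) := by
      apply heat_anti hs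
      nlinarith
    rw [(pol_le hv t u hx).1, (pol_le hv t u hx).2, (pol_ge hv t u hy).1, (pol_ge hv t u hy).2]
    have := four (a := u x) (b := u (rfl' v t x)) (c := u (rfl' v t y)) (e := u y) hpq
    rw [max_comm (u (rfl' v t y)), min_comm (u (rfl' v t y))] at this
    linarith
  · have hpq : heat d s (x - y) ≤ heat d s (x - rfl' v t y) := by
      apply heat_anti hs
      nlinarith
    rw [(pol_ge hv t u hx).1, (pol_ge hv t u hx).2, (pol_le hv t u hy).1, (pol_le hv t u hy).2]
    have := four (a := u x) (b := u (rfl' v t x)) (c := u (rfl' v t y)) (e := u y) hpq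
    rw [max_comm (u (rfl' v t y)), min_comm (u (rfl' v t y))] at this
    linarith
  · have hpq : heat d s (x - rfl' v t y) ≤ heat d s (x - y) := by
      apply heat_anti hs
      nlinarith
    rw [(pol_ge hv t u hx).1, (pol_ge hv t u hx).2, (pol_ge hv t u hy).1, (pol_ge hv t u hy).2]
    have := four (a := u x) (b := u (rfl' v t x)) (c := u y) (e := u (rfl' v t y)) hpq
    linarith

lemma int_comp {α : Type} [MeasurableSpace α] {μ : Measure α} {m : α → α}
    (hm : MeasurePreserving m μ μ) {F : α → ℝ} (hF : Integrable F μ) :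
    ∫ x, F (m x) ∂μ = ∫ x, F x ∂μ := by
  have h := integral_map (μ := μ) hm.measurable.aemeasurable (f := F)
    (by rw [hm.map_eq]; exact hF.1)
  rw [hm.map_eq] at h
  exact h.symm

lemma sq_sum {v : V d} (hv : ‖v‖ = 1) (t : ℝ) (u : V d → ℝ) (x : V d) :
    polF v t u x ^ 2 + polF v t u (rfl' v t x) ^ 2 = u x ^ 2 + u (rfl' v t x) ^ 2 := by
  have h : ∀ a b : ℝ, max a b ^ 2 + min a b ^ 2 = a ^ 2 + b ^ 2 := by
    intro a b
    rcases le_total a b with h | h
    · rw [max_eq_right h, min_eq_left h]; ring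
    · rw [max_eq_left h, min_eq_right h]
  rcases le_total ⟪x, v⟫_ℝ t with hx | hx
  · rw [(pol_le hv t u hx).1, (pol_le hv t u hx).2, h]
  · rw [(pol_ge hv t u hx).1, (pol_ge hv t u hx).2, add_comm, h]

lemma pol_abs (v : V d) (t : ℝ) (u : V d → ℝ) (x : V d) :
    ‖polF v t u x‖ ≤ ‖|u x| + |u (rfl' v t x)|‖ := by
  have h : ∀ a b : ℝ, |max a b| ≤ |a| + |b| ∧ |min a b| ≤ |a| + |b| := by
    intro a b
    have ha := abs_nonneg a
    have hb := abs_nonneg b
    rcases le_total a b with h | h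
    · rw [max_eq_right h, min_eq_left h]; constructor <;> linarith
    · rw [max_eq_left h, min_eq_right h]; constructor <;> linarith
  rw [Real.norm_eq_abs, Real.norm_eq_abs, abs_of_nonneg (by positivity : 0 ≤ |u x| + |u (rfl' v t x)|)]
  unfold polF
  split_ifs
  · exact (h _ _).1
  · exact (h _ _).2

theorem main : S_POL := by
  intro hP d T hT v t hv u
  have hmp : MeasurePreserving (rfl' v t) (volume : Measure (V d)) volume := hP.mp d v t hv
  have hum : Measurable (u : V d → ℝ) := (Lp.stronglyMeasurable u).measurable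
  have hσ : Measurable (rfl' v t : V d → V d) := (continuous_rfl v t).measurable
  have hA : MeasurableSet {x : V d | ⟪x, v⟫_ℝ ≤ t} := by
    apply IsClosed.measurableSet
    exact isClosed_le (by fun_prop) continuous_const
  have hPm : Measurable (polF v t (u : V d → ℝ)) := by
    classical
    have e : polF v t (u : V d → ℝ) = Set.piecewise {x : V d | ⟪x, v⟫_ℝ ≤ t}
        (fun x => max ((u : V d → ℝ) x) ((u : V d → ℝ) (rfl' v t x)))
        (fun x => min ((u : V d → ℝ) x) ((u : V d → ℝ) (rfl' v t x))) := by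
      funext x
      by_cases h : ⟪x, v⟫_ℝ ≤ t <;> simp [polF, Set.piecewise, h]
    rw [e]
    exact Measurable.piecewise hA (hum.max (hum.comp hσ)) (hum.min (hum.comp hσ))
  have hu2 : MemLp (u : V d → ℝ) 2 volume := Lp.memLp u
  have huσ : MemLp (fun x => (u : V d → ℝ) (rfl' v t x)) 2 volume :=
    hu2.comp_measurePreserving hmp
  have hPL : MemLp (polF v t (u : V d → ℝ)) 2 volume := by
    have h1 : MemLp (fun x => |(u : V d → ℝ) x| + |(u : V d → ℝ) (rfl' v t x)|) 2 volume :=
      hu2.norm.add huσ.norm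
    exact h1.mono hPm.aestronglyMeasurable (ae_of_all _ fun x => pol_abs v t _ x)
  obtain ⟨w, hw⟩ : ∃ w : L2 d, w = hPL.toLp _ := ⟨_, rfl⟩
  have hwae : (w : V d → ℝ) =ᵐ[volume] polF v t u := by
    rw [hw]
    exact hPL.coeFn_toLp
  refine ⟨w, hwae, ?_, ?_⟩
  · rw [L2.inner_def, L2.inner_def]
    have e1 : ∫ x, ⟪(w : V d → ℝ) x, (w : V d → ℝ) x⟫_ℝ = ∫ x, polF v t (u : V d → ℝ) x ^ 2 := by
      refine integral_congr_ae (hwae.mono fun x hx => ?_)
      simp only [hx]
      simp [sq]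
    have e2 : ∫ x, ⟪(u : V d → ℝ) x, (u : V d → ℝ) x⟫_ℝ = ∫ x, (u : V d → ℝ) x ^ 2 := by
      refine integral_congr_ae (ae_of_all _ fun x => ?_)
      simp [sq]
    rw [e1, e2]
    have i1 : Integrable (fun x => polF v t (u : V d → ℝ) x ^ 2) := hPL.integrable_sq
    have i2 : Integrable (fun x => (u : V d → ℝ) x ^ 2) := hu2.integrable_sq
    have i3 : Integrable (fun x => polF v t (u : V d → ℝ) (rfl' v t x) ^ 2) :=
      (hmp.integrable_comp i1.1).2 i1
    have i4 : Integrable (fun x => (u : V d → ℝ) (rfl' v t x) ^ 2) :=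
      (hmp.integrable_comp i2.1).2 i2
    have j1 := int_comp hmp i1
    have j2 := int_comp hmp i2
    have k1 : ∫ x, (polF v t (u : V d → ℝ) x ^ 2 + polF v t (u : V d → ℝ) (rfl' v t x) ^ 2) =
        ∫ x, ((u : V d → ℝ) x ^ 2 + (u : V d → ℝ) (rfl' v t x) ^ 2) := by
      congr 1
      funext x
      exact sq_sum hv t _ x
    rw [integral_add i1 i3, integral_add i2 i4, j1, j2] at k1
    linarith
  · intro s hs
    rw [hT.inner s hs, hT.inner s hs]
    obtain ⟨μ, hμ⟩ : ∃ μ, μ = ((volume : Measure (V d)).prod (volume : Measure (V d))) := ⟨_, rfl⟩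
    have I1 : Integrable (G s (u : V d → ℝ)) μ := hμ ▸ hT.int s hs u u
    have I2w : Integrable (G s (w : V d → ℝ)) μ := hμ ▸ hT.int s hs w w
    have hww : G s (w : V d → ℝ) =ᵐ[μ] G s (polF v t (u : V d → ℝ)) := by
      have h1 : ∀ᵐ p ∂μ, (w : V d → ℝ) p.1 = polF v t (u : V d → ℝ) p.1 := by
        rw [hμ]; exact Measure.quasiMeasurePreserving_fst.ae hwae
      have h2 : ∀ᵐ p ∂μ, (w : V d → ℝ) p.2 = polF v t (u : V d → ℝ) p.2 := by
        rw [hμ]; exact Measure.quasiMeasurePreserving_snd.ae hwae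
      filter_upwards [h1, h2] with p hp1 hp2
      simp only [G, hp1, hp2]
    have I2 : Integrable (G s (polF v t (u : V d → ℝ))) μ := I2w.congr hww
    have eW : ∫ p, (w : V d → ℝ) p.1 * (w : V d → ℝ) p.2 * heat d s (p.1 - p.2)
        ∂((volume : Measure (V d)).prod volume) = ∫ p, G s (polF v t (u : V d → ℝ)) p ∂μ := by
      rw [← hμ]
      exact integral_congr_ae hww
    have eU : ∫ p, (u : V d → ℝ) p.1 * (u : V d → ℝ) p.2 * heat d s (p.1 - p.2)
        ∂((volume : Measure (V d)).prod volume) = ∫ p, G s (u : V d → ℝ) p ∂μ := by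
      rw [← hμ]; rfl
    rw [eW, eU]
    have hid : MeasurePreserving (id : V d → V d) volume volume := MeasurePreserving.id _
    have m1 : MeasurePreserving (fun p : V d × V d => (rfl' v t p.1, p.2)) μ μ := by
      rw [hμ]; exact hmp.prod hid
    have m2 : MeasurePreserving (fun p : V d × V d => (p.1, rfl' v t p.2)) μ μ := by
      rw [hμ]; exact hid.prod hmp
    have m3 : MeasurePreserving (fun p : V d × V d => (rfl' v t p.1, rfl' v t p.2)) μ μ := by
      rw [hμ]; exact hmp.prod hmp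
    have key : ∀ f : V d → ℝ, Integrable (G s f) μ →
        Integrable (S4 v t s f) μ ∧ ∫ p, S4 v t s f p ∂μ = 4 * ∫ p, G s f p ∂μ := by
      intro f hf
      have a1 : Integrable (fun p : V d × V d => G s f (rfl' v t p.1, p.2)) μ :=
        (m1.integrable_comp hf.1).2 hf
      have a2 : Integrable (fun p : V d × V d => G s f (p.1, rfl' v t p.2)) μ :=
        (m2.integrable_comp hf.1).2 hf
      have a3 : Integrable (fun p : V d × V d => G s f (rfl' v t p.1, rfl' v t p.2)) μ :=
        (m3.integrable_comp hf.1).2 hf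
      have b1 := int_comp m1 hf
      have b2 := int_comp m2 hf
      have b3 := int_comp m3 hf
      refine ⟨((hf.add a1).add a2).add a3, ?_⟩
      have e : ∫ p, S4 v t s f p ∂μ = ∫ p, G s f p ∂μ +
          ∫ p : V d × V d, G s f (rfl' v t p.1, p.2) ∂μ +
          ∫ p : V d × V d, G s f (p.1, rfl' v t p.2) ∂μ +
          ∫ p : V d × V d, G s f (rfl' v t p.1, rfl' v t p.2) ∂μ := by
        have s1 := integral_add hf a1
        have s2 := integral_add (hf.add a1) a2
        have s3 := integral_add ((hf.add a1).add a2) a3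
        simp only [Pi.add_apply] at s2 s3
        have e0 : ∫ p, S4 v t s f p ∂μ = ∫ p : V d × V d, G s f p + G s f (rfl' v t p.1, p.2) +
          G s f (p.1, rfl' v t p.2) + G s f (rfl' v t p.1, rfl' v t p.2) ∂μ := rfl
        linarith
      rw [e, b1, b2, b3]
      ring
    have k1 := key _ I1
    have k2 := key _ I2
    have k3 : ∫ p, S4 v t s (u : V d → ℝ) p ∂μ ≤ ∫ p, S4 v t s (polF v t (u : V d → ℝ)) p ∂μ :=
      integral_mono k1.1 k2.1 fun p => S4_le hv t hs _ p
    rw [k1.2, k2.2] at k3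
    linarith

end Pool.Agent.N454.TMPOL
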