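import Pool.Agent.N59.TT.Stm
import Pool.Agent.V11238.MG.FP

/-!
Project TT (helper59), part FIN (helper454): overgroups of finite index.
-/

set_option autoImplicit false

namespace Pool.Agent.N454.TTFIN

open Pool.Agent.N59.TT

lemma fi_comap {A B : Type} [Group A] [Group B] (f : A →* B) (H : Subgroup B)
    (h : H.FiniteIndex) : (H.comap f).FiniteIndex := by
  refine ⟨?_⟩
  rw [Subgroup.index_comap]
  have h1 : (H.subgroupOf f.range).FiniteIndex := inferInstance
  exact h1.index_ne_zero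

theorem main : S_FIN := by
  intro G _ K hK hTT L _ hL hF φ
  have := hK
  have hKc : (K.comap φ).FiniteIndex := fi_comap φ K hK
  have := hL
  have hfp : Group.IsFinitelyPresented (K.comap φ) :=
    Pool.Agent.V11238.MG.fp_of_finiteIndex (K.comap φ)
  have hnf : ¬ F2 (K.comap φ) := by
    rintro ⟨f, hf⟩
    exact hF ⟨(K.comap φ).subtype.comp f, (Subgroup.subtype_injective _).comp hf⟩
  obtain ⟨ψ, hψ⟩ : ∃ ψ : (K.comap φ) →* K, ∀ x, (ψ x : G) = φ x :=
    ⟨(φ.comp (K.comap φ).subtype).codRestrict K (fun x => x.2), fun x => rfl⟩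
  obtain ⟨A, hA, hcomm⟩ := hTT (K.comap φ) hfp hnf ψ
  obtain ⟨A', hA'⟩ : ∃ A' : Subgroup (K.comap φ), A' = A.comap ψ.rangeRestrict := ⟨_, rfl⟩
  have hfi' : A'.FiniteIndex := by rw [hA']; exact fi_comap _ _ hA
  have hfi'' : (A'.map (K.comap φ).subtype).FiniteIndex := by
    refine ⟨?_⟩
    rw [Subgroup.index_map_subtype]
    exact mul_ne_zero hfi'.index_ne_zero Subgroup.FiniteIndex.index_ne_zero
  refine ⟨(A'.map (K.comap φ).subtype).map φ.rangeRestrict, ⟨?_⟩, ?_⟩
  · exact ne_zero_of_dvd_ne_zero hfi''.index_ne_zero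
      (Subgroup.index_map_dvd _ φ.rangeRestrict_surjective)
  · rintro _ ⟨_, ⟨y, hy, rfl⟩, rfl⟩ _ ⟨_, ⟨z, hz, rfl⟩, rfl⟩
    have hy' : ψ.rangeRestrict y ∈ A := by
      have : y ∈ A' := hy
      rw [hA'] at this
      exact this
    have hz' : ψ.rangeRestrict z ∈ A := by
      have : z ∈ A' := hz
      rw [hA'] at this
      exact this
    have h1 := hcomm _ hy' _ hz'
    have h2 : ψ y * ψ z = ψ z * ψ y := congrArg Subtype.val h1
    have h3 : (ψ y : G) * ψ z = ψ z * ψ y := congrArg Subtype.val h2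
    rw [hψ, hψ] at h3
    apply Subtype.ext
    exact h3

end Pool.Agent.N454.TTFIN
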